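import Pool.Agent.Run7.h363.CV.GrowthF
set_option autoImplicit false

/-!
Regulators from the motivic cohomology of regular arithmetic schemes `𝒳` in weight `dim 𝒳`, for
`i = dim X`, `X` the generic fibre: the varieties
`z + y_1 + ... + y_q + 1/(z y_1 ^ v_1 ... y_q ^ v_q) = λ ∏_k P_k(x_k)`, `P_k = ∏_{i ≤ m_k} (x - a_{k,i})`,
`k = 1, ..., n`, of dimension `n + q`, fibred over the `x`-space by members of a pencil of varieties of
dimension `q` (for `v_i = 1` the Calabi-Yau varieties mirror to the Dwork pencil). There are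
`m_1 ... m_n` unramified classes in Milnor K-theory with linearly independent regulators if the product
of `|λ|` and the smallest critical values of the polynomials `P_k` is larger than a constant; there is no
hypothesis about the distances of the roots. Over `ℚ`, for rational integers `λ ≠ 0` and different
rational integers as roots, there is no exception if the degrees are large.
-/

namespace Pool.Agent.Results.MP_51fc19_nt.CriticalValuesFibrations

open Polynomial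

open Pool.Agent.TH690.PF (PRing mPhi mPhi_ne_C isDomain_PRing SmoothPts UnramSymb IndepReg
  unramSymb)

variable {n q : ℕ}

/-- The conclusions, over the field `K` with the complex embedding `σ` (`v_i = w_i + 1`): the
coordinate ring of the affine hypersurface `F = Y z² + Y (y_1 + ... + y_q - Φ) z + 1 = 0`,
`Y = y_1 ^ v_1 ... y_q ^ v_q`, `Φ = λ ∏_k ∏_i (x_k - a_{k,i})` (that is
`z + y_1 + ... + y_q + 1/(z y_1 ^ v_1 ... y_q ^ v_q) = Φ`) is a domain; the hypersurface is smooth at all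
its complex points over `σ` (the partial derivatives `∂F/∂z`, `∂F/∂y_k` and
`∂F/∂x_j = - Y z ∂Φ/∂x_j` do not vanish simultaneously); for all `i = (i_k)` with `1 ≤ i_k ≤ m_k` the
symbol with the entries `z`, `(x_k - a_{k,i_k})/(x_k - a_{k,0})` and `y_1, ..., y_q` on the open part
`Φ ≠ 0` is unramified at all discrete valuations of the function field; and there are `∏_k m_k`
tori of full real dimension (the dimension of the hypersurface) in the complex points (over `σ`) of the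
open part, such that the determinant of the regulators on the tori of these `∏_k m_k` symbols
does not vanish. -/
def ManyClasses.{u, v} (w : Fin q → ℕ) {m : Fin n → ℕ} {K : Type u} [Field K] (σ : K →+* ℂ)
    (lam : K) (a : ∀ k, Fin (m k + 1) → K) : Prop :=
  IsDomain (PRing w (mPhi lam a)) ∧ SmoothPts w σ (mPhi lam a) ∧
    UnramSymb.{u, v} w lam a ∧ IndepReg w σ lam a

/-- the constant of the criterion: `96 2^(n+q) (n + q) ∏_k (m_k + 1)^2 + ∑_i (v_i - 1)` -/
noncomputable def bound (m : Fin n → ℕ) (w : Fin q → ℕ) : ℝ :=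
  96 * 2 ^ (n + q) * ((n : ℝ) + q) * (∏ k, ((m k : ℝ) + 1)) ^ 2 + ∑ i, (w i : ℝ)

theorem criterion.{u, v} (hn : 1 ≤ n) (w : Fin q → ℕ) {m : Fin n → ℕ} {K : Type u} [Field K]
    [NumberField K] (σ : K →+* ℂ) (lam : K) (a : ∀ k, Fin (m k + 1) → K)
    (hlam : IsIntegral ℤ lam) (ha : ∀ k i, IsIntegral ℤ (a k i))
    (hinj : ∀ k, Function.Injective (a k)) (c : Fin n → ℝ) (hc : ∀ k, 0 < c k)
    (hcrit : ∀ k (ξ : ℂ), (derivative (∏ i, (X - C (σ (a k i))))).eval ξ = 0 →
      c k ≤ ‖∏ i, (ξ - σ (a k i))‖)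
    (h : bound m w ^ (n + 1) ≤ ‖σ lam‖ * ∏ k, c k) : ManyClasses.{u, v} w σ lam a := by
  have hb : (96 : ℝ) ≤ bound m w := Pool.Agent.Run7.h363.CV.CF_ge_96 m w hn
  have hl0 : lam ≠ 0 := by
    rintro rfl
    rw [map_zero, norm_zero, zero_mul] at h
    have := pow_pos (by linarith : 0 < bound m w) (n + 1)
    linarith
  have hcrit' : ∀ k ξ, (derivative (∏ i, (X - C (σ (a k i))))).eval ξ = 0 →
      c k ≤ ‖(∏ i, (X - C (σ (a k i)))).eval ξ‖ := by
    intro k ξ hξ
    have h1 := hcrit k ξ hξ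
    rw [eval_prod]
    simpa using h1
  exact ⟨isDomain_PRing (mPhi_ne_C lam a hn hl0),
    Pool.Agent.Run7.h363.CV.smoothPts hn w hc hcrit' h, unramSymb w hn ha hlam hl0,
    Pool.Agent.Run7.h363.CV.indepReg hn w hinj hc hcrit' h⟩

theorem rat_crit.{v} (hn : 1 ≤ n) (w : Fin q → ℕ) {m : Fin n → ℕ} {g : ℤ}
    {b : ∀ k, Fin (m k + 1) → ℤ} (hb : ∀ k, Function.Injective (b k)) (σ : ℚ →+* ℂ)
    (c : Fin n → ℝ) (hc : ∀ k, 0 < c k)
    (hcrit : ∀ k (ξ : ℂ), (derivative (∏ i, (X - C (b k i : ℂ)))).eval ξ = 0 →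
      c k ≤ ‖∏ i, (ξ - (b k i : ℂ))‖)
    (h : bound m w ^ (n + 1) ≤ |(g : ℝ)| * ∏ k, c k) :
    ManyClasses.{0, v} w σ (g : ℚ) fun k i => (b k i : ℚ) := by
  refine criterion.{0, v} hn w σ (g : ℚ) _ (isIntegral_algebraMap (R := ℤ) (A := ℚ) (x := g))
    (fun k i => isIntegral_algebraMap (R := ℤ) (A := ℚ) (x := b k i))
    (fun k i j hij => hb k (by exact_mod_cast hij)) c hc (fun k ξ hξ => ?_) ?_
  · simp only [map_intCast] at hξ ⊢
    exact hcrit k ξ hξ
  · rw [map_intCast, Complex.norm_intCast]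
    exact h

/-- Let `n ≥ 1`, `q ≥ 0`, `v_i = w_i + 1 ≥ 1`, `i = 1, ..., q`, and `m_1, ..., m_n ≥ 0`.

*Number fields.* Let `K` be a number field, `σ` a complex embedding of `K`, let `λ` and
`a_{k,i}` (`1 ≤ k ≤ n`, `0 ≤ i ≤ m_k`) be algebraic integers of `K`, `a_{k,i} ≠ a_{k,j}` for `i ≠ j`,
`P_k = ∏_i (x - σ a_{k,i})`, and let `c_k > 0` be a lower bound for the absolute values of the critical
values of `P_k`. If `|σ λ| ∏_k c_k ≥ (96 2^(n+q) (n + q) ∏_k (m_k + 1)^2 + ∑_i (v_i - 1))^(n + 1)`, then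
`ManyClasses` holds for
`z + y_1 + ... + y_q + 1/(z y_1 ^ v_1 ... y_q ^ v_q) = λ ∏_k ∏_i (x_k - a_{k,i})`.

*Rational integers.* Let `g ≠ 0` and `b_{k,i}` (`1 ≤ k ≤ n`, `0 ≤ i ≤ m_k`) be rational integers,
`b_{k,i} ≠ b_{k,j}` for `i ≠ j`. Suppose that `m_k ≥ 16 (n + ∑_i v_i + 1)` for all `k`, or that
`|g| ∏_k |b_{k,i_k} - b_{k,j_k}| ≥ 8^n (bound m w)^(n + 1)` for some `i_k`, `j_k`. Then `ManyClasses` holds
for `z + y_1 + ... + y_q + 1/(z y_1 ^ v_1 ... y_q ^ v_q) = g ∏_k ∏_i (x_k - b_{k,i})` over `ℚ`. -/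
theorem result.{u, v} (n q : ℕ) (hn : 1 ≤ n) (w : Fin q → ℕ) (m : Fin n → ℕ) :
    (∀ (K : Type u) [Field K] [NumberField K] (σ : K →+* ℂ) (lam : K)
      (a : ∀ k, Fin (m k + 1) → K), IsIntegral ℤ lam → (∀ k i, IsIntegral ℤ (a k i)) →
      (∀ k, Function.Injective (a k)) →
      ∀ c : Fin n → ℝ, (∀ k, 0 < c k) →
      (∀ k (ξ : ℂ), (derivative (∏ i, (X - C (σ (a k i))))).eval ξ = 0 →
        c k ≤ ‖∏ i, (ξ - σ (a k i))‖) →
      bound m w ^ (n + 1) ≤ ‖σ lam‖ * ∏ k, c k → ManyClasses.{u, v} w σ lam a) ∧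
    ∀ (g : ℤ) (b : ∀ k, Fin (m k + 1) → ℤ), g ≠ 0 → (∀ k, Function.Injective (b k)) →
      ((∀ k, 16 * (n + ∑ i, (w i + 1) + 1) ≤ m k) ∨
        ∃ i j : ∀ k, Fin (m k + 1), 8 ^ n * bound m w ^ (n + 1) ≤
          |(g : ℝ)| * ∏ k, |(b k (i k) : ℝ) - b k (j k)|) → ∀ σ : ℚ →+* ℂ,
      ManyClasses.{0, v} w σ (g : ℚ) fun k i => (b k i : ℚ) := by
  refine ⟨fun K _ _ σ lam a hlam ha hinj c hc hcrit h =>
    criterion hn w σ lam a hlam ha hinj c hc hcrit h, fun g b hg hb h σ => ?_⟩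
  have hg1 : (1 : ℝ) ≤ |(g : ℝ)| := by exact_mod_cast Int.one_le_abs hg
  rcases h with h | ⟨i, j, h⟩
  · refine rat_crit.{v} hn w hb σ (fun k => Pool.Agent.N686.DI.mm (m k + 1))
      (fun k => Pool.Agent.N686.DI.mm_pos _)
      (fun k ξ hξ => Pool.Agent.N686.DI.crit_int (Nat.succ_pos _) (b k) (hb k) hξ) ?_
    refine (Pool.Agent.Run7.h363.CV.CF_growth hn m w h).trans
      (le_mul_of_one_le_left ?_ hg1)
    exact Finset.prod_nonneg fun k _ => (Pool.Agent.N686.DI.mm_pos _).le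
  · have hb96 : (96 : ℝ) ≤ bound m w := Pool.Agent.Run7.h363.CV.CF_ge_96 m w hn
    have hpos : 0 < ∏ k, |(b k (i k) : ℝ) - b k (j k)| := by
      have h1 : 0 < 8 ^ n * bound m w ^ (n + 1) :=
        mul_pos (by positivity) (pow_pos (by linarith) _)
      by_contra hcon
      have h2 : |(g : ℝ)| * ∏ k, |(b k (i k) : ℝ) - b k (j k)| ≤ 0 :=
        mul_nonpos_of_nonneg_of_nonpos (by linarith) (not_lt.1 hcon)
      linarith
    have hk : ∀ k, 0 < |(b k (i k) : ℝ) - b k (j k)| := fun k =>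
      lt_of_le_of_ne (abs_nonneg _) (Ne.symm (Finset.prod_ne_zero_iff.1 hpos.ne' k
        (Finset.mem_univ k)))
    refine rat_crit.{v} hn w hb σ (fun k => |(b k (i k) : ℝ) - b k (j k)| / 8)
      (fun k => by
        have := hk k
        positivity) (fun k ξ hξ => ?_) ?_
    · have h1 := Pool.Agent.N686.DI.crit_int_abs (b k) (hb k) hξ (i k) (j k)
      push_cast at h1
      exact h1
    · rw [Finset.prod_div_distrib, Finset.prod_const, Finset.card_univ, Fintype.card_fin,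
        ← mul_div_assoc, le_div_iff₀ (by positivity), mul_comm]
      exact h

end Pool.Agent.Results.MP_51fc19_nt.CriticalValuesFibrations
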