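import Pool.Agent.Run7.h954.FP.GReg
import Pool.Agent.Run7.h954.FP.Fin
import Pool.Agent.Run7.h954.FP.Dom
set_option autoImplicit false

/-!
The regulator on `H^d(𝒳, ℚ(d))`, `d = dim 𝒳` (the map `r_i` for `i = d - 1`): on the fibrations
`W(z) = λ ∏_k ∏_i L_{k,i}(P_k) ^ (w_{k,i} + 1)` over products of affine plane curves of arbitrary
genus, `W` a Laurent polynomial in `z_0, ..., z_s` and the `L_{k,i}` arbitrary functions on the
curves, there are `∏_k r_k` unramified classes in Milnor K-theory whose regulators on `∏_k r_k` tori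
are asymptotic to a multiple of the identity matrix.
-/

namespace Pool.Agent.Results.MP_51fc19_nt.FibrationsOverProductsOfCurves

open Pool.Agent.TH826.MK (KQ Unramified Torus)

open Pool.Agent.N65.TL (LP Interior Tame zmat bdir det_zmat exists_vertex)

open Pool.Agent.Run7.h954.FP

/-- The symbols `s_T` in `K_{s+d+2}^M ⊗ ℚ` of the coordinate ring of `X_λ` have unramified images in
the Milnor K-theory of all fields `L` with a homomorphism from the coordinate ring to `L`. -/
def UnramifiedSymbols.{u, v} {K : Type u} [Field K] {s d : ℕ} (W : LP K (s + 1))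
    (D : Data K (d + 1)) (w : ∀ k, Fin (D.r k + 1) → ℕ) (lam : K) : Prop :=
  ∀ (L : Type v) [Field L] (f : D.FibRing W w lam →+* L) (T : ∀ k, Fin (D.r k)),
    KQ.map _ f (D.fsym W w lam T) ∈ Unramified L _

open scoped Classical in
/-- There are tori `Γ_T` of dimension `s + d + 1` in the complex points (over `σ`) of `X_λ`, such that
the regulator of `s_{T'}` on `Γ_T`, divided by `log |σ λ|`, differs by at most `ε` from
`(2 π)^(s + d + 1) q` for `T = T'` and from `0` for `T ≠ T'`, and the determinant of the matrix of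
the regulators does not vanish. -/
def DiagonalRegulators {K : Type*} [Field K] {s d : ℕ} (W : LP K (s + 1)) (D : Data K (d + 1))
    (w : ∀ k, Fin (D.r k + 1) → ℕ) (σ : K →+* ℂ) (lam : K) (q : ℚ) (ε : ℝ) : Prop :=
  ∃ Γ : (∀ k, Fin (D.r k)) → Torus (D.FibRing W w lam) (s + (d + 1)),
    (∀ T θ (x : K), (Γ T).e θ (D.fcst W w lam x) = σ x) ∧
    (∀ T T', |(Γ T).reg (D.fsym W w lam T') / Real.log ‖σ lam‖ -
      (if T = T' then (2 * Real.pi) ^ (s + (d + 1)) * (q : ℝ) else 0)| ≤ ε) ∧
    (Matrix.of fun T T' : (∀ k, Fin (D.r k)) => (Γ T).reg (D.fsym W w lam T')).det ≠ 0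

/-- Let `s, d ≥ 0`, let `K` be a number field, and let `W = ∑_m w_m z^m` be a Laurent polynomial in
`z_0, ..., z_s` over `K` such that

* the origin is an interior point of the Newton polytope (`Interior`: for every functional
  `a ∈ ℤ^{s+1}`, `a ≠ 0`, there is a monomial `z^m` of `W` with `a · m > 0`), and
* `W Q = ∏_j G_j` for a Laurent polynomial `Q ≠ 0` with integral coefficients and polynomials
  `G_j = ∑_i ε_{j,i} z^{m_{j,i}}` of simplex type (`Tame`): the `ε_{j,i}` are roots of unity, and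
  for every `j` the exponents `m_{j,i}` are affinely independent

(for example `z_0 + 1/z_0`, `z_0 + ... + z_s + 1/(z_0 ... z_s)`, `∏_i (1 + z_i)² / z_i`).
Let `C_0, ..., C_d` be the affine plane curves `H_k(x, w) = 0`, where `H_k = w^(n_k) + ε x^(m_k) + ...`
has integral coefficients, `n_k, m_k ≥ 1`, `ε` is a root of unity, and all other terms `x^i w^j` have
weight `n_k i + m_k j < n_k m_k` (for example lines `w = x`, elliptic curves `w² = x³ + a x + b`,
hyperelliptic curves `w² = x^m + ...`, or `w^n + x^n + (terms of degree < n) = 0`). For each `k` let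
`L_{k,0}, ..., L_{k,r_k}` be functions on `C_k`, given by polynomials in `x` and `w` with integral
coefficients, whose leading terms are unique, are roots of unity times monomials, and have the weights
`d_{k,i} > 0` (`Data.Adm`). Let `w_{k,i} ≥ 0` be integers. For `λ` in `K` let `X_λ`, of dimension
`s + d + 1`, be the open part `∏_k ∏_i L_{k,i}(P_k) ≠ 0` of the variety
`W(z) = λ ∏_k ∏_i L_{k,i}(P_k) ^ (w_{k,i} + 1)`, `z_i ≠ 0`, `P_k ∈ C_k`; its coordinate ring is
`D.FibRing W w λ`. On it there are the `∏_k r_k` symbols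
`s_T = {z_0, ..., z_s, u_{0,T_0}, ..., u_{d,T_d}}`,
`u_{k,i} = L_{k,i}^{d_{k,0}} / L_{k,0}^{d_{k,i}}`, `1 ≤ i ≤ r_k` (`D.fsym W w λ T`; the index
`i ≥ 1` is the successor of an element of `Fin r_k`).

* For all integral `λ` the symbols `s_T` in `K_{s+d+2}^M ⊗ ℚ` of the coordinate ring of `X_λ` have
  unramified images in the Milnor K-theory of all fields `L` with a homomorphism from the coordinate
  ring to `L`, for example the function fields of the components of `X_λ` (`UnramifiedSymbols`).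

* There is a rational number `q ≠ 0` (the same for all embeddings `σ`) with the following
  property. Let `σ` be an embedding of `K` such that each `L_{k,i}`, `i ≥ 1`, has a transversal zero in
  the complex points (over `σ`) of `C_k` which is not a zero of the other `L_{k,j}` (`Data.Zeros`).
  Then for all `ε > 0` and all `λ` in `K` with `|σ λ| ≥ C₀(σ, ε)` there are tori `Γ_T` of dimension
  `s + d + 1` in the complex points (over `σ`) of `X_λ`, such that the regulator of `s_{T'}` on
  `Γ_T`, divided by `log |σ λ|`, differs by at most `ε` from `(2 π)^(s + d + 1) q` for `T = T'` and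
  from `0` for `T ≠ T'`, and the determinant of the matrix of the regulators does not vanish
  (`DiagonalRegulators`). -/
theorem result.{u, v} (s d : ℕ) (K : Type u) [Field K] [NumberField K] (W : LP K (s + 1))
    (hWi : Interior W) (hWt : Tame W) (D : Data K (d + 1)) (hD : D.Adm)
    (w : ∀ k, Fin (D.r k + 1) → ℕ) :
    (∀ lam : K, IsIntegral ℤ lam → UnramifiedSymbols.{u, v} W D w lam) ∧
    ∃ q : ℚ, q ≠ 0 ∧ ∀ σ : K →+* ℂ, D.Zeros σ → ∀ ε : ℝ, 0 < ε → ∃ C₀ : ℝ,
      ∀ lam : K, C₀ ≤ ‖σ lam‖ → DiagonalRegulators W D w σ lam q ε := by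
  refine ⟨fun lam hlam L _ f T => D.funram hD hWi hWt w hlam f T, ?_⟩
  obtain ⟨al, v, hv, hpos, hmax⟩ := exists_vertex hWi
  obtain ⟨i0, hi0⟩ : ∃ i0, v i0 ≠ 0 := by
    by_contra hcon
    push Not at hcon
    have h1 : Pool.Agent.N65.TL.dot al v = 0 :=
      Finset.sum_eq_zero fun i _ => by rw [hcon i, mul_zero]
    omega
  obtain ⟨r0, hr0⟩ := det_rat (M := zmat al v i0) fun i j => by
    unfold zmat
    rw [Matrix.of_apply]
    refine Fin.cases ?_ (fun l => ?_) j
    · exact ⟨(al i : ℚ) / Pool.Agent.N65.TL.dot al v, by simp⟩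
    · exact ⟨(bdir v i0 l i : ℚ), by simp⟩
  have hr00 : r0 ≠ 0 := by
    rintro rfl
    rw [Rat.cast_zero] at hr0
    exact det_zmat hpos hi0 hr0
  have hd : ∀ k, (D.d k 0 : ℚ) ≠ 0 := by
    intro k
    obtain ⟨a, b, h1, h2⟩ := hD.lead k 0
    have h3 := h2.1
    rw [h1] at h3
    exact_mod_cast h3.ne'
  have hk1 : ((Pool.Agent.N65.TL.dot al v).toNat : ℚ) ≠ 0 := by
    have : (Pool.Agent.N65.TL.dot al v).toNat ≠ 0 := by omega
    exact_mod_cast this
  have hq0 : r0 * ∏ k, (-(((Pool.Agent.N65.TL.dot al v).toNat : ℚ) * D.d k 0)) ≠ 0 :=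
    mul_ne_zero hr00 (Finset.prod_ne_zero_iff.2 fun k _ => neg_ne_zero.2 (mul_ne_zero hk1 (hd k)))
  refine ⟨r0 * ∏ k, (-(((Pool.Agent.N65.TL.dot al v).toNat : ℚ) * D.d k 0)), hq0,
    fun σ hz ε hε => ?_⟩
  generalize hq : r0 * ∏ k, (-(((Pool.Agent.N65.TL.dot al v).toNat : ℚ) * D.d k 0)) = q at hq0
  have hqR : (zmat al v i0).det *
      ∏ k, (-(((Pool.Agent.N65.TL.dot al v).toNat : ℝ) * D.d k 0)) = (q : ℝ) := by
    rw [← hq, hr0]
    push_cast
    rfl
  have hQ : (2 * Real.pi) ^ (s + (d + 1)) * (q : ℝ) ≠ 0 := mul_ne_zero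
    (pow_ne_zero _ (by have := Real.pi_pos; positivity)) (by exact_mod_cast hq0)
  obtain ⟨ε1, hε1, hdet⟩ := exists_det (ι := ∀ k, Fin (D.r k)) hQ
  obtain ⟨C₀, hC⟩ := exists_gtori D w σ hz hv hpos hmax i0 (lt_min hε hε1)
  refine ⟨max C₀ 2, fun lam hlam => ?_⟩
  obtain ⟨Γ, h1, h2⟩ := hC lam ((le_max_left _ _).trans hlam)
  have h2' : ∀ T T', |(Γ T).reg (D.fsym W w lam T') / Real.log ‖σ lam‖ -
      (if T = T' then (2 * Real.pi) ^ (s + (d + 1)) * (q : ℝ) else 0)| ≤ min ε ε1 := by
    intro T T'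
    have h3 := h2 T T'
    rw [hqR, mul_ite, mul_zero] at h3
    exact h3
  have hτ : Real.log ‖σ lam‖ ≠ 0 := by
    have h3 : (2 : ℝ) ≤ ‖σ lam‖ := (le_max_right _ _).trans hlam
    exact (Real.log_pos (by linarith)).ne'
  exact ⟨Γ, h1, fun T T' => (h2' T T').trans (min_le_left _ _), hdet _ _ hτ fun T T' =>
    (h2' T T').trans (min_le_right _ _)⟩

end Pool.Agent.Results.MP_51fc19_nt.FibrationsOverProductsOfCurves
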