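import Pool.Agent.Run7.h954.FP.Fin
set_option autoImplicit false

/-!
The regulator on `H^d(𝒳, ℚ(d))`, `d = dim 𝒳` (the map `r_i` for `i = d - 1`): the fibre products of two
fibrations `W(z) = F(P)` and `V(y) = G(P)` over an affine curve `H(x, w) = 0` of arbitrary genus, with
`H = w^n + ε x^m + ...`, and arbitrary functions `F`, `G` on the curve whose leading terms at
infinity are roots of unity times monomials: unramified classes in Milnor K-theory, with regulators
asymptotic to a nonzero rational multiple of `(2 π)^dim X log |c|` for `G + c`, `c → ∞`.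
-/

namespace Pool.Agent.Results.MP_51fc19_nt.FibreProductsOverCurves

open Pool.Agent.N65.TL (LP)

open Pool.Agent.N65.TE (SimplexFaces ProductFaces)

open Pool.Agent.Run7.h954.FP

open Polynomial

/-- Let `K` be a number field, and let `W` and `V` be Laurent polynomials over `K` in `z_0, ..., z_s`
and in `y_0, ..., y_t`, `s, t ≥ 0`, whose coefficients are algebraic integers and whose Newton
polytopes have the origin in the interior, such that for all nonzero functionals `a`

* the face polynomial `face W a` (the sum of the terms `w_m z^m` of `W` with the largest value of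
  `a · m`) is of simplex type: `∑_i ε_i z^{m_i}` with roots of unity `ε_i` and affinely independent
  exponents `m_i` (`SimplexFaces`), and
* the face polynomial `face V a` is a product of polynomials of simplex type (`ProductFaces`)

(examples are `z + 1/z`, `z_0 + z_1 + 1/(z_0 z_1) + k`, `z_0 + 1/z_0 + ... + z_s + 1/z_s`).

Let `n, m ≥ 1`, let `H = w^n + ε x^m + ...` be a polynomial in `x` and `w` with integral
coefficients, where `ε` is a root of unity and all other terms `x^i w^j` have weight
`n i + m j < n m` (`CurveType`; there is no condition of smoothness or irreducibility, and none on the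
greatest common divisor of `n` and `m`: examples are all elliptic curves `w² = x³ + a x + b` and all
hyperelliptic curves `w² = x^m + ...` with integral `a, b, ...`, the `C_ab` curves and the curves
`w^n + x^n + (terms of smaller degree) = 0`). Let `F` and `G` be polynomials in `x` and `w` with
integral coefficients, whose leading terms are unique, of positive weight, and have roots of unity as
coefficients (`MonicFn`; for example `x + a`, `w + b`, `x w + a x + b w + c`). Let `X(F, G)` be the
fibre product `H(x, w) = 0`, `W(z) = F(x, w)`, `V(y) = G(x, w)`, `z_i ≠ 0`, `y_j ≠ 0`, of dimension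
`s + t + 1`; its coordinate ring is `PRing W V F G` for the images of `F` and `G` in the coordinate
ring `AdjoinRoot H` of the curve.

The symbol `{z_0, ..., z_s, y_0, ..., y_t}` in `K_{s+t+2}^M ⊗ ℚ` of the coordinate ring of `X(F, G)`
has an unramified image in the Milnor K-theory of all fields `L` with a homomorphism from the
coordinate ring to `L` (for example the function fields of the components of `X(F, G)`).

There is a rational number `r ≠ 0`, the same for all `σ`, such that for every embedding `σ` of `K`,
all `ε > 0` and all `c ∈ K` with `|σ c| ≥ C(σ, ε)` there is a torus `Γ` of dimension `s + t + 1` in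
the complex points (over `σ`) of `X(F, G + c)`, such that the quotient of the regulator of the symbol
on `Γ` and of `log |σ c|` differs from `(2 π)^(s + t + 1) r` by at most `ε`; in particular the
regulator does not vanish for large `|σ c|`. -/
theorem result.{u, v} (s t n m : ℕ) (K : Type u) [Field K] [NumberField K] (W : LP K (s + 1))
    (V : LP K (t + 1)) (hW : SimplexFaces W) (hV : ProductFaces V) (H F G : K[X][X])
    (hH : CurveType n m H) (hF : MonicFn n m F) (hG : MonicFn n m G) :
    Unram.{u, v, u} W V (AdjoinRoot.mk H F) (AdjoinRoot.mk H G) ∧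
    ∃ r : ℚ, r ≠ 0 ∧ ∀ (σ : K →+* ℂ) (ε : ℝ), 0 < ε → ∃ C₀ : ℝ, ∀ c : K, C₀ ≤ ‖σ c‖ →
      HasReg W V (AdjoinRoot.mk H F) (AdjoinRoot.mk H (G + C (C c))) σ (Real.log ‖σ c‖)
        ((2 * Real.pi) ^ (s + t + 1) * r) ε := by
  refine ⟨fun L _ f => unram hH hW hV hF hG f, ?_⟩
  obtain ⟨a, b, hl⟩ := hF.lead
  obtain ⟨r, hr, h⟩ := exists_reg_rat (K := K) hW.interior hV.interior hl.1
  refine ⟨r, hr, fun σ ε hε => ?_⟩
  obtain ⟨C₀, hC⟩ := h (AdjoinRoot H) (AdjoinRoot.mk H F) (AdjoinRoot.mk H G) σ
    (poleLoops hH σ hl) ε hε
  refine ⟨C₀, fun c hc => ?_⟩
  rw [map_add]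
  exact hC c hc

end Pool.Agent.Results.MP_51fc19_nt.FibreProductsOverCurves
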