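import Pool.Agent.Run7.h770.PG.Main6
set_option autoImplicit false

/-!
The regulator `r_1` of regular models of elliptic curves (`d = 2`, `i = 1`): polynomial growth of the
dimension of its image over finite extensions, for elliptic curves with integral `j`-invariant.
-/

namespace Pool.Agent.Results.MP_51fc19_nt.RegulatorGrowth

open WeierstrassCurve

open Pool.Agent.Run7.h770.IJ (crv jk j_crv exists_crv isElliptic_crv)

open Pool.Agent.W367.KT (K2 H2MZ Loop)

open Pool.Agent.Run7.h770.PG (K2Q)

open Pool.Agent.T6.H7.SX (cst Xf Yf)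

open scoped TensorProduct

/-- The regulator on `K_2 (F) ⊗ ℚ` at the closed paths from the set `P`: an element is sent to the
function on `P` whose value at a path is the regulator integral along the path. -/
noncomputable def reg (F : Type*) [Field F] (P : Set (Loop F)) (α : ℚ ⊗[ℤ] K2 F) (γ : P) : ℝ :=
  (γ : Loop F).regQ α

/-- The real subspace of `M` spanned by the values of `R` at the elements of `H`. -/
def realSpan {V M : Type*} [AddCommGroup V] [Module ℚ V] [AddCommGroup M] [Module ℝ M]
    (H : Submodule ℚ V) (R : V → M) : Submodule ℝ M := Submodule.span ℝ (R '' H)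

/-- The image of the regulator: the real subspace spanned by the regulators of the elements of the
integral part `H2MZ F` of `K_2 (F) ⊗ ℚ`. -/
noncomputable def regImage (F : Type*) [Field F] (P : Set (Loop F)) : Submodule ℝ (P → ℝ) :=
  realSpan (H2MZ F) (reg F P)

/-- The dimension of the image of the regulator. -/
noncomputable def regRank (F : Type*) [Field F] (P : Set (Loop F)) : Cardinal :=
  Module.rank ℝ (regImage F P)

/-- The closed paths over the embedding `σ` of the subfield `K` of `L`: all the embeddings of the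
function field `L(W)` in the family restrict to `σ` on `K`. -/
def PathsOver {K L : Type*} [Field K] [Field L] [Algebra K L] (W : WeierstrassCurve L)
    (σ : K →+* ℂ) : Set (Loop W.toAffine.FunctionField) :=
  {γ | ∀ (t : ℝ) (c : K), γ.e t (cst W (algebraMap K L c)) = σ c}

/-- The homomorphism `Γ` of the function field of the curve `W` over `L` is `g` on the constants
and fixes the coordinate functions `X` and `Y`. -/
def Induces {L : Type*} [Field L] (W : WeierstrassCurve L) (g : L →+* L)
    (Γ : W.toAffine.FunctionField →+* W.toAffine.FunctionField) : Prop :=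
  (∀ c, Γ (cst W c) = cst W (g c)) ∧ Γ (Xf W) = Xf W ∧ Γ (Yf W) = Yf W

/-- There is an element `α` of `V` all of whose translates `S ^ j α` belong to the subspace `H`,
such that the values of `R` at the `N` first translates are linearly independent over `ℝ`. -/
def FreeOrbit {V M : Type*} [AddCommGroup V] [Module ℚ V] [AddCommGroup M] [Module ℝ M]
    (H : Submodule ℚ V) (R : V → M) (S : V →ₗ[ℚ] V) (N : ℕ) : Prop :=
  ∃ α : V, (∀ j : ℕ, (S ^ j) α ∈ H) ∧
    LinearIndependent ℝ fun j : Fin N => R ((S ^ (j : ℕ)) α)

/-- Let `g` be an endomorphism of the field `L`, acting on the function field `L(W)` of the curve `W`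
through the constants. There is an `α` in `K_2 (L(W)) ⊗ ℚ` such that all its translates belong to the
integral part, and the regulators over `σ` of its `N` first translates are linearly independent over
`ℝ`. -/
def FreeOver {K L : Type*} [Field K] [Field L] [Algebra K L] (W : WeierstrassCurve L)
    (g : L →+* L) (σ : K →+* ℂ) (N : ℕ) : Prop :=
  ∃ Γ : W.toAffine.FunctionField →+* W.toAffine.FunctionField, Induces W g Γ ∧
    FreeOrbit (H2MZ W.toAffine.FunctionField) (reg W.toAffine.FunctionField (PathsOver W σ))
      (K2Q Γ) N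

/-- The `j`-invariant of `E` is an algebraic integer, or `E` has an integral parameter `k`: an
algebraic integer `k` with `(k⁴ - 16 k² + 16)³ = j k² (k² - 16)`, that is, such that `E` is over an
algebraic closure isomorphic to the (smooth) curve `x + 1/x + y + 1/y = k`. -/
def IntegralParameter {K : Type*} [Field K] (E : WeierstrassCurve K) [E.IsElliptic] : Prop :=
  IsIntegral ℤ E.j ∨ ∃ k : AlgebraicClosure K, IsIntegral ℤ k ∧
    (k ^ 4 - 16 * k ^ 2 + 16) ^ 3 =
      algebraMap K (AlgebraicClosure K) E.j * (k ^ 2 * (k ^ 2 - 16))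

/-- The extension `L` of `K` is finite of degree at most `d`, the image of the regulator over the
embedding `σ` of `K` on the integral part of `K_2 ⊗ ℚ` of the curve `E` over `L` has dimension at
least `n`, and, more precisely, there are `N ≥ n` and an automorphism `g` of `L` over `K` with
`g ^ N = 1` such that the regulators over `σ` of the `N` translates by `g` of some element of the
integral part are linearly independent over `ℝ`. -/
def LargeImage {K : Type*} [Field K] (E : WeierstrassCurve K) (σ : K →+* ℂ)
    (L : IntermediateField K (AlgebraicClosure K)) (d n : ℕ) : Prop :=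
  FiniteDimensional K L ∧ Module.finrank K L ≤ d ∧
    n ≤ regRank (E.map (algebraMap K L)).toAffine.FunctionField
      (PathsOver (E.map (algebraMap K L)) σ) ∧
    ∃ N : ℕ, n ≤ N ∧ ∃ g : L →ₐ[K] L, (∀ x : L, (g ^ N) x = x) ∧
      FreeOver (E.map (algebraMap K L)) g σ N

theorem le_rank {F : Type*} [Field F] {P : Set (Loop F)} {N : ℕ} {α : Fin N → ℚ ⊗[ℤ] K2 F}
    (h1 : ∀ j, α j ∈ H2MZ F) (h2 : LinearIndependent ℝ fun j => reg F P (α j)) :
    (N : Cardinal) ≤ regRank F P := by
  unfold regRank
  have h3 : LinearIndependent ℝ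
      (fun j : Fin N => (⟨reg F P (α j), Submodule.subset_span ⟨_, h1 j, rfl⟩⟩ : regImage F P)) :=
    LinearIndependent.of_comp (regImage F P).subtype h2
  simpa using h3.cardinal_lift_le_rank

theorem indep {F : Type*} [Field F] {P : Set (Loop F)} {N : ℕ} {α : Fin N → ℚ ⊗[ℤ] K2 F}
    {l : Fin N → Loop F} (hl : ∀ i, l i ∈ P)
    (h : (Matrix.of fun i j : Fin N => (l i).regQ (α j)).det ≠ 0) :
    LinearIndependent ℝ fun j => reg F P (α j) := by
  have h1 : LinearIndependent ℝ (Matrix.of fun i j : Fin N => (l i).regQ (α j)).col :=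
    Matrix.linearIndependent_cols_of_det_ne_zero h
  exact LinearIndependent.of_comp (LinearMap.funLeft ℝ ℝ fun i => (⟨l i, hl i⟩ : P)) h1

theorem number (c n : ℕ) (hn : 0 < n) :
    c * (Nat.clog 2 n + 1) * 16 ^ Nat.clog 2 n ≤ 16 * c * n ^ 4 * (Nat.log 2 n + 2) := by
  have h1 : Nat.clog 2 n ≤ Nat.log 2 n + 1 := by
    refine Nat.clog_le_of_le_pow ?_
    exact (Nat.lt_pow_succ_log_self (by norm_num) n).le
  have h2 : 2 ^ Nat.log 2 n ≤ n := Nat.pow_log_le_self 2 (by omega)
  have h3 : 16 ^ Nat.clog 2 n ≤ 16 * n ^ 4 := by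
    calc 16 ^ Nat.clog 2 n ≤ 16 ^ (Nat.log 2 n + 1) := Nat.pow_le_pow_right (by norm_num) h1
      _ = 16 * (2 ^ Nat.log 2 n) ^ 4 := by
        rw [← pow_mul, mul_comm (Nat.log 2 n) 4, pow_mul, pow_succ]
        norm_num
        ring
      _ ≤ 16 * n ^ 4 := Nat.mul_le_mul_left _ (Nat.pow_le_pow_left h2 4)
  have h4 : Nat.clog 2 n + 1 ≤ Nat.log 2 n + 2 := by omega
  calc c * (Nat.clog 2 n + 1) * 16 ^ Nat.clog 2 n
      ≤ c * (Nat.log 2 n + 2) * (16 * n ^ 4) :=
        Nat.mul_le_mul (Nat.mul_le_mul_left _ h4) h3
    _ = 16 * c * n ^ 4 * (Nat.log 2 n + 2) := by ring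

/-- Let `E` be an elliptic curve over a number field `K` whose `j`-invariant is an algebraic
integer, or, more generally, which has an integral parameter `k`. Then there is a number `C` such
that for every complex embedding `σ` of `K` and every `n > 0` there is a finite extension `L` of `K`
of degree at most `C * n ^ 4 * (log₂ n + 2)` such that the image of the regulator over `σ` on the
integral part of `K_2 (L(E)) ⊗ ℚ` has dimension at least `n`. More precisely, there are an
automorphism `g` of `L` over `K` with `g ^ N = 1`, `n ≤ N`, and an `α` in the integral part, such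
that the regulators over `σ` of the `N` translates `α, g α, ..., g ^ (N - 1) α` are linearly
independent over `ℝ`. -/
theorem result (K : Type*) [Field K] [NumberField K] (E : WeierstrassCurve K) [E.IsElliptic]
    (h : IntegralParameter E) :
    ∃ C : ℕ, ∀ (σ : K →+* ℂ) (n : ℕ), 0 < n →
      ∃ L : IntermediateField K (AlgebraicClosure K),
        LargeImage E σ L (C * n ^ 4 * (Nat.log 2 n + 2)) n := by
  have key : ∀ {k : AlgebraicClosure K} (_ : k ≠ 0) (_ : k ^ 2 ≠ 16) (_ : IsIntegral ℤ k)
      (C : VariableChange (AlgebraicClosure K))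
      (_ : C • E.map (algebraMap K (AlgebraicClosure K)) = crv k),
      ∃ C : ℕ, ∀ (σ : K →+* ℂ) (n : ℕ), 0 < n →
      ∃ L : IntermediateField K (AlgebraicClosure K),
        LargeImage E σ L (C * n ^ 4 * (Nat.log 2 n + 2)) n := by
    intro k h0 h4 hi C hC
    obtain ⟨c, h2⟩ := Pool.Agent.Run7.h770.PG.grow_all E h0 h4 hi C hC
    refine ⟨16 * c, fun σ n hn => ?_⟩
    obtain ⟨L, a1, a2, g, a3, Γ, b1, b2, b3, α, l, B, c0, c1, c2, c3, -⟩ := h2 σ (Nat.clog 2 n)
    have hle : n ≤ 2 ^ Nat.clog 2 n := Nat.le_pow_clog (by norm_num) n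
    have hl : ∀ i, l i ∈ PathsOver (E.map (algebraMap K L)) σ := by
      intro i
      obtain ⟨τ, hτ, h5⟩ := c0 i
      intro t c
      rw [h5, hτ]
    have hind := indep (fun i => hl i) c3
    refine ⟨L, a1, a2.trans (number c n hn), ?_, 2 ^ Nat.clog 2 n, hle, g, a3, Γ,
      ⟨b1, b2, b3⟩, α, c1, hind⟩
    refine le_trans ?_ (le_rank (fun j => c1 (j : ℕ)) hind)
    exact_mod_cast hle
  rcases h with hj | ⟨k, hi, hk⟩
  · obtain ⟨k, h0, h4, hjk, C, hC⟩ := exists_crv (E.map (algebraMap K (AlgebraicClosure K)))
    refine key h0 h4 ?_ C hC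
    refine Pool.Agent.Run7.h770.UB.k_int (j := jk k) ?_ ?_
    · rw [hjk, WeierstrassCurve.map_j]
      exact map_isIntegral_int _ hj
    · unfold jk
      rw [div_mul_cancel₀]
      exact mul_ne_zero (pow_ne_zero 2 h0) (sub_ne_zero.2 h4)
  · have h16 : (16 : AlgebraicClosure K) ≠ 0 := by norm_num
    have h0 : k ≠ 0 := by
      rintro rfl
      have : (16 : AlgebraicClosure K) ^ 3 = 0 := by linear_combination hk
      exact pow_ne_zero 3 h16 this
    have h4 : k ^ 2 ≠ 16 := by
      intro h
      have h3 : k ^ 4 = 256 := by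
        have : k ^ 4 = (k ^ 2) ^ 2 := by ring
        rw [this, h]
        norm_num
      rw [h3, h] at hk
      have : (16 : AlgebraicClosure K) ^ 3 = 0 := by linear_combination hk
      exact pow_ne_zero 3 h16 this
    have hjk : jk k = (E.map (algebraMap K (AlgebraicClosure K))).j := by
      rw [WeierstrassCurve.map_j]
      unfold jk
      rw [div_eq_iff (mul_ne_zero (pow_ne_zero 2 h0) (sub_ne_zero.2 h4)), hk]
    have _ := isElliptic_crv h0 h4
    obtain ⟨C, hC⟩ := exists_variableChange_of_j_eq (E.map (algebraMap K (AlgebraicClosure K)))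
      (crv k) (by rw [j_crv, hjk])
    exact key h0 h4 hi C hC

end Pool.Agent.Results.MP_51fc19_nt.RegulatorGrowth
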